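import Pool.Agent.Lib.MP_d610d0_nt.CH.S.All

set_option autoImplicit false

/-!
Section F (final assembly `S_final`): definitions and the statements of the pieces with complete
informal proofs.

Notation: `L = log J`, `z = zJ J = (3J)^(3/8)` (`z^8 = 27 J^3`), `X = 27 J^3`, `x_j = (j+1/2)^3`,
`μ_j = x_j/(2J)`; for `J < j ≤ 2J`: `J^3 ≤ x_j ≤ 16 J^3`, `J^2/2 ≤ μ_j ≤ 8 J^2`.
-/

namespace Pool.Agent.CH.F

open Finset
open scoped ArithmeticFunction.Omega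
open Pool.Agent.MP89da58 (tri)

/-- The mass of the window. -/
noncomputable def mu (J j : ℕ) : ℝ := ((j : ℝ) + 1 / 2) ^ 3 / (2 * J)

open Classical in
/-- The number of `n` in `(j^3, (j+1)^3)` divisible by the square of a prime `≥ z`. -/
noncomputable def sqn (J j : ℕ) : ℕ :=
  ((Ioo (j ^ 3) ((j + 1) ^ 3)).filter (fun n : ℕ => ∃ q : ℕ, q.Prime ∧ zJ J ≤ q ∧ q ^ 2 ∣ n)).card

/-- The good windows. -/
structure Good (J : ℕ) (cp cm : ℕ → ℝ) (j : ℕ) : Prop where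
  g1 : |∑ q ∈ Icc 1 J, cm q * EE J thP (-2) j q| ≤ (J : ℝ) ^ 2 / Real.log J ^ 3
  g2 : |∑ q ∈ Icc 1 J, cp q * EE J (RR (zJ J)) 2 j q| ≤ (J : ℝ) ^ 2 / Real.log J ^ 3
  g3 : 0.999 * mu J j ≤ ∑ n ∈ Icc 1 (27 * J ^ 3), thP n * wJ J j n
  g4 : ∑ n ∈ Icc 1 (27 * J ^ 3), RR (zJ J) n * wJ J j n ≤ 0.40 * mu J j / (3 * Real.log J)
  g5 : (sqn J j : ℝ) ≤ (J : ℝ) ^ (15 / 8 : ℝ)

open Classical in
/-- The properties of the sieve weights (see `I_S`). -/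
structure SW (J : ℕ) (cp cm : ℕ → ℝ) : Prop where
  wp : Wt (zJ J) ((J : ℝ) ^ (999 / 1000 : ℝ)) cp
  wm : Wt (zJ J) ((J : ℝ) ^ (999 / 1000 : ℝ)) cm
  lo : ∀ n : ℕ, Odd n → dsum cm n ≤ (if Rough (zJ J) n then 1 else 0)
  up : ∀ n : ℕ, Odd n → (if Rough (zJ J) n then 1 else 0) ≤ dsum cp n
  mp : ∑ d ∈ Icc 1 J, cp d / (Nat.totient d : ℝ) ≤ 1.39 * VV (zJ J)
  mm : 0.62 * VV (zJ J) ≤ ∑ d ∈ Icc 1 J, cm d / (Nat.totient d : ℝ)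

open Classical in
/-- The weighted number of primes `p` in the window such that `p + 2` is `z`-rough. -/
noncomputable def SS (J j : ℕ) : ℝ := ∑ p ∈ Icc 1 (27 * J ^ 3),
  thP p * wJ J j p * (if Rough (zJ J) (p + 2) then 1 else 0)

open Classical in
/-- The same with at least four prime factors of `p + 2`. -/
noncomputable def TT (J j : ℕ) : ℝ := ∑ p ∈ Icc 1 (27 * J ^ 3),
  thP p * wJ J j p * (if Rough (zJ J) (p + 2) ∧ 4 ≤ Ω (p + 2) then 1 else 0)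

/-- [CF V] Lower bound for `V(z)`.
Proof. `S.p_mer` with `ε = 1` gives `a0 ≥ 3` with `Mer 1 a` for `a ≥ a0`. Take the fixed `X = a0`, `a = X + 1`.
For `J` large `a ≤ z`, and by the last part of `S.p_tel`
`VV z = (∏ p ∈ OP X, (1 - gd p)) * V a ⌈z⌉₊`, the product is a positive constant `c'` (each factor
`1 - 1/(p-1) ≥ 1/2` for odd primes), and `Mer 1 a` with `n = a`, `w = z`: `log a ≤ 2 V a ⌈z⌉₊ log z`. So
`VV z ≥ c' log a/(2 log z)`, `log z = (3/8) log (3J) ≤ L` for `J ≥ 3`. -/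
def S_V : Prop := ∃ (c : ℝ) (J0 : ℕ), 0 < c ∧ ∀ J : ℕ, J0 ≤ J → c / Real.log J ≤ VV (zJ J)

/-- [CF win] The windows. (`tri` is even, 1-Lipschitz, values in `[0,1]`.)
Proof. (1) clear. (2) Let `wJ J j n ≠ 0`, `n ≥ 1`: `|log (n/x_j)| < 1/(2J)`.
`n < x_j exp (1/(2J))`; `(j+1)^3 = x_j ((j+1)/(j+1/2))^3` and `3 log ((j+1)/(j+1/2)) ≥ (3/2)/(j+1)
≥ (3/2)/(2J+1)`, so `(j+1)^3 - n > x_j (exp ((3/2)/(2J+1)) - exp (1/(2J))) ≥ x_j ((3/2)/(2J+1) - 1/(2J))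
= x_j (J - 1)/(2J(2J+1)) ≥ J^3 (J-1)/(6 J^2) ≥ 2` for `J ≥ 5`. Lower end:
`3 log ((j+1/2)/j) ≥ (3/2)/(j+1/2) ≥ 1/(2J)`, so `n > x_j exp (-1/(2J)) ≥ j^3`. (3) The `n` with
`wJ J j n ≠ 0` lie in `(j^3, (j+1)^3)`, so there are at most `3j^2+3j ≤ 18 J^2` of them. (4) For
`n ≥ J^3`: `|wJ J j n - wJ J j (n+2)| ≤ 2J log ((n+2)/n) ≤ 4J/n ≤ 4/J^2`. -/
def S_win : Prop := ∀ J : ℕ, 5 ≤ J → ∀ j ∈ Ioc J (2 * J),
  (∀ n, 0 ≤ wJ J j n ∧ wJ J j n ≤ 1) ∧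
  (∀ n, 1 ≤ n → wJ J j n ≠ 0 → j ^ 3 < n ∧ n + 2 < (j + 1) ^ 3 ∧ J ^ 3 < n ∧ n + 2 < 27 * J ^ 3) ∧
  (((Icc 1 (27 * J ^ 3)).filter (fun n => wJ J j n ≠ 0)).card : ℝ) ≤ 18 * (J : ℝ) ^ 2 ∧
  (∀ n, J ^ 3 ≤ n → wJ J j n ≤ wJ J j (n + 2) + 4 / (J : ℝ) ^ 2)

/-- [CF sq] Numbers divisible by the square of a large prime.
Proof. `(j+1)^3 ≤ 27 J^3` and the intervals `(j^3,(j+1)^3)` are disjoint, so the sum is at most the number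
of `n ≤ 27 J^3` divisible by `q^2` for some prime `q ≥ z`, at most `∑_{q ≥ z} 27 J^3/q^2` (natural
numbers `q ≥ z ≥ 2`, `q^2 ≤ 27 J^3`) `≤ 27 J^3 * 2/z` (`∑_{q ≥ ⌈z⌉} 1/q^2 ≤ 1/(⌈z⌉-1) ≤ 2/z`). The number
of `j` with `sqn > J^(15/8)` is at most `54 J^3/(z J^(15/8))`, and `z ≥ J^(3/8)`:
`≤ 54 J^(3/4)`. -/
def S_sq : Prop := ∀ J : ℕ, 16 ≤ J →
  (((Ioc J (2 * J)).filter (fun j => (J : ℝ) ^ (15 / 8 : ℝ) < sqn J j)).card : ℝ)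
    ≤ 54 * (J : ℝ) ^ (3 / 4 : ℝ)

open Classical in
/-- [CF sel] Almost all windows are good (`hyp` = S_sq).
Proof. The bad `j` are in the union of five sets. g1: `I_D1` with exponent `A + 6`:
`#{j : |..| > J^2/L^3} * (J^4/L^6) ≤ C J^5/L^(A+6)`, so `# ≤ C J/L^A`. g2: the same with `I_D2`. g3, g4:
`I_M1`, `I_M2` with exponent `A` (the sets there are literally the negations; unfold `mu`). g5: S_sq,
`54 J^(3/4) ≤ J/L^A` for `J` large. Add the constants. -/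
def S_sel : Prop := I_D1 → I_D2 → I_M1 → I_M2 → ∀ A : ℕ, ∃ (C : ℝ) (J0 : ℕ), ∀ J : ℕ, J0 ≤ J →
  ∀ cp cm : ℕ → ℝ, SW J cp cm →
  (((Ioc J (2 * J)).filter (fun j => ¬ Good J cp cm j)).card : ℝ) ≤ C * J / Real.log J ^ A

/-- [CF sw] Exchange of the summations.
Proof. `dsum c m = ∑_{q ∣ m} c q`; for `1 ≤ m` the divisors `q` with `c q ≠ 0` satisfy
`1 ≤ q ≤ J^(999/1000) ≤ J`, so `dsum c m = ∑_{q ∈ Icc 1 J} [q ∣ m] c q`. Exchange the sums; `q ∣ n + 2` iff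
`(q:ℤ) ∣ (n:ℤ) - (-2)`, and for `n ≥ 3` `q ∣ n - 2` (natural subtraction) iff `(q:ℤ) ∣ (n:ℤ) - 2`; the
definition of `EE` gives `∑_{n ≡ a} f n wJ n = EE + (1/φ(q)) ∑ f n wJ n`. In the second claim the terms
`n < 3` vanish by hypothesis. -/
def S_sw : Prop := ∀ (J j : ℕ) (f c : ℕ → ℝ), 1 ≤ J →
  Wt (zJ J) ((J : ℝ) ^ (999 / 1000 : ℝ)) c →
  (∑ n ∈ Icc 1 (27 * J ^ 3), f n * wJ J j n * dsum c (n + 2)
    = ∑ q ∈ Icc 1 J, c q * EE J f (-2) j q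
      + (∑ q ∈ Icc 1 J, c q / (Nat.totient q : ℝ)) * ∑ n ∈ Icc 1 (27 * J ^ 3), f n * wJ J j n) ∧
  ((∀ n, n < 3 → f n * wJ J j n = 0) →
    ∑ n ∈ Icc 1 (27 * J ^ 3), f n * wJ J j n * dsum c (n - 2)
    = ∑ q ∈ Icc 1 J, c q * EE J f 2 j q
      + (∑ q ∈ Icc 1 J, c q / (Nat.totient q : ℝ)) * ∑ n ∈ Icc 1 (27 * J ^ 3), f n * wJ J j n)

/-- [CF rr] The almost primes.
Proof. (1) clear (cardinality divided by a factorial). (2) `n` is a product of primes `≥ z`. (If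
`Rk z k n ≠ 0` there is such a tuple with product `n`; a prime dividing the product divides and so equals
an entry, which is `≥ z`.) (3) Let `k = Ω n = n.primeFactorsList.length`; `z^k ≤ n < z^8` gives `k < 8`, so
`4 ≤ k ≤ 7`, and it suffices to show `k! ≤` the number of tuples in `Rk z k n`. As `n` is squarefree the
list of its prime factors has no repetitions: there is an injective `t : Fin k → ℕ` with product `n`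
and prime values `≥ z` (and `≤ n`), and `σ ↦ t ∘ σ` is injective from `Equiv.Perm (Fin k)` (of
cardinality `k!`) into the set of these tuples (`Equiv.prod_comp`). -/
def S_rr : Prop := ∀ (z : ℝ) (n : ℕ), 2 < z → 1 ≤ n →
  0 ≤ RR z n ∧ (RR z n ≠ 0 → Rough z n) ∧
  (Squarefree n → Rough z n → (n : ℝ) < z ^ 8 → 4 ≤ Ω n → 1 ≤ RR z n)

/-- [CF lo] Lower bound (`hyp` = S_win, S_sw).
Proof. `J` large, so `L > 0`, `2 < z`. For `n` with `thP n * wJ J j n ≠ 0`: `n` is a prime `> J^3 ≥ 2`, so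
odd, `n + 2` is odd, and `[Rough z (n+2)] ≥ dsum cm (n+2)` (`SW.lo`), with weight `≥ 0`. By S_sw
`SS ≥ ∑ cm q EE + (∑ cm q/φ(q)) ∑ thP wJ ≥ -J^2/L^3 + 0.62 VV z * 0.999 mu` (`VV z ≥ 0` as all factors
`1 - 1/(p-1) ≥ 0`). -/
def S_lo : Prop := ∃ J0 : ℕ, ∀ J : ℕ, J0 ≤ J → ∀ cp cm : ℕ → ℝ, SW J cp cm →
  ∀ j ∈ Ioc J (2 * J), Good J cp cm j →
  0.619 * VV (zJ J) * mu J j - (J : ℝ) ^ 2 / Real.log J ^ 3 ≤ SS J j

/-- [CF up] Upper bound (`hyp` = S_win, S_sw, S_rr).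
Proof. `J` large. A term of `TT` which is not zero belongs to a prime `p`, `J^3 < p`, `j^3 < p`,
`n = p + 2 < (j+1)^3`, `n < 27 J^3 = z^8`, `thP p = log p ≤ log (27 J^3) ≤ 3L + 4`. (a) `n` not
squarefree: some `q^2 ∣ n`, `q` prime, so `q ≥ z` (`n` is rough): at most `sqn J j ≤ J^(15/8)` of them,
`wJ ≤ 1`. (b) `n` squarefree: `RR z n ≥ 1` (S_rr), `wJ J j p ≤ wJ J j n + 4/J^2` (S_win), and `n - 2 = p` is
odd and `z`-rough (`p > J^3 ≥ z`), so `1 ≤ dsum cp (n-2)`. As `RR ≥ 0`, `wJ ≥ 0`, and `dsum cp (m-2) ≥ 0`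
for odd `m ≥ 3`, and `RR z m ≠ 0` implies `m` odd (`z > 2`): the sum of `wJ J j p` over these `p` is
`≤ ∑_{m} RR z m wJ J j m dsum cp (m-2) + (4/J^2) * 18 J^2` (the number of `p` with `wJ J j p ≠ 0` is
`≤ 18 J^2`). By S_sw (`f = RR z`; the terms `m < 3` vanish, S_win for `m ≥ 1`, and `RR z 0 = 0`, or
`Icc 1 _` only) the first sum is `∑ cp q EE + (∑ cp q/φ(q)) ∑ RR wJ ≤ J^2/L^3 + 1.39 VV z * 0.40 mu/(3L)`.
Total `TT ≤ (3L+4) (J^(15/8) + 72 + J^2/L^3 + 0.556 VV z mu/(3L))`. -/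
def S_up : Prop := ∃ J0 : ℕ, ∀ J : ℕ, J0 ≤ J → ∀ cp cm : ℕ → ℝ, SW J cp cm →
  ∀ j ∈ Ioc J (2 * J), Good J cp cm j →
  TT J j ≤ (3 * Real.log J + 4) * ((J : ℝ) ^ (15 / 8 : ℝ) + 72 + (J : ℝ) ^ 2 / Real.log J ^ 3
    + 0.556 * VV (zJ J) * mu J j / (3 * Real.log J))

/-- [CF one] One window (`hyp` = S_V, S_win, S_lo, S_up).
Proof. `c0` from S_V. `SS - TT ≥ (0.619 - 0.556 (1 + 4/(3L))) VV z mu - J^2/L^3 - (3L+4)(J^(15/8) + 72 + J^2/L^3)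
≥ 0.06 VV z mu - 8 J^2/L^2 ≥ 0.06 (c0/L)(J^2/2) - 8 J^2/L^2 ≥ 0.02 c0 J^2/L` for `J` large. And `SS - TT =
∑ thP p wJ J j p [Rough (p+2), Ω(p+2) ≤ 3]`, each term `≤ 3L + 4 ≤ 4L`, so there are at least
`(0.02 c0/4) J^2/L^2` primes `p` with `wJ J j p ≠ 0`, `Rough z (p+2)`, `Ω (p+2) ≤ 3`; by S_win `j^3 < p`,
`p + 2 < (j+1)^3`, and a prime `q ∣ p + 2` is `≥ z`, `q^3 ≥ (3J)^(9/8) ≥ 3J > j`. So all of them lie in
`chenSet j`, which is finite (subset of `Ioo (j^3) ((j+1)^3)`). `c = c0/200`. -/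
def S_one : Prop := ∃ (c : ℝ) (J0 : ℕ), 0 < c ∧ ∀ J : ℕ, J0 ≤ J → ∀ cp cm : ℕ → ℝ, SW J cp cm →
  ∀ j ∈ Ioc J (2 * J), Good J cp cm j →
  c * (J : ℝ) ^ 2 / Real.log J ^ 2 ≤ ((chenSet j).ncard : ℝ)

open Classical in
/-- [CF dya] Dyadic summation.
Proof. Let `c1 = c/4`. For `n ∈ Ioc J (2J)`, `J ≥ J0`, `J ≥ 2`: if `ncard (chenSet n) < c1 n^2/(log (n+1))^2` then
`ncard < c J^2/L^2` (`n ≤ 2J`, `log (n+1) ≥ L > 0`). Given `A`, take `C, J0` from the hypothesis. Let `N ≥ 2`.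
Every `n ∈ [2, N]` lies in `Ioc (2^i) (2^(i+1))` for one `i` (`2^i < n ≤ N`). Blocks with `2^i < J0` or
`4^i < N` contain together at most `2 J0 + 2 √N + 2` elements; the other blocks (`2^i ≥ √N`, so
`log 2^i ≥ (log N)/2 > 0`) at most `C 2^i/((log N)/2)^A` bad ones, and `∑_{2^i ≤ N} 2^i ≤ 2N`. Total
`≤ 1 + 2 J0 + 2 + 2 √N + 2^(A+1) C N/(log N)^A ≤ C' N/(log N)^A` (as `(log N)^A ≤ C'' √N`, replace `C` by
`max C 0`). -/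
def S_dya : Prop := (∃ c : ℝ, 0 < c ∧ ∀ A : ℕ, ∃ (C : ℝ) (J0 : ℕ), ∀ J : ℕ, J0 ≤ J →
  (((Ioc J (2 * J)).filter (fun j : ℕ =>
    ((chenSet j).ncard : ℝ) < c * (J : ℝ) ^ 2 / Real.log J ^ 2)).card : ℝ)
      ≤ C * J / Real.log J ^ A) → I_final

end Pool.Agent.CH.F
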