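import Pool.Agent.Lib.MP_d610d0_nt.CH.F.P.V
import Pool.Agent.Lib.MP_d610d0_nt.CH.F.P.win
import Pool.Agent.Lib.MP_d610d0_nt.CH.F.P.sq
import Pool.Agent.Lib.MP_d610d0_nt.CH.F.P.sel
import Pool.Agent.Lib.MP_d610d0_nt.CH.F.P.sw
import Pool.Agent.Lib.MP_d610d0_nt.CH.F.P.rr
import Pool.Agent.Lib.MP_d610d0_nt.CH.F.P.lo
import Pool.Agent.Lib.MP_d610d0_nt.CH.F.P.up
import Pool.Agent.Lib.MP_d610d0_nt.CH.F.P.one
import Pool.Agent.Lib.MP_d610d0_nt.CH.F.P.dya

set_option autoImplicit false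

/-!
Section F: the assembly.
-/

namespace Pool.Agent.CH.F

open Finset

/-- The final assembly from the hypotheses of the pieces. -/
theorem of_pieces (hsel : S_sel) (hone : S_one) (hdya : S_dya) : S_final := by
  classical
  intro hS hD1 hD2 hM1 hM2
  obtain ⟨c, J1, hc, hone'⟩ := hone
  obtain ⟨J2, hS'⟩ := hS
  apply hdya
  refine ⟨c, hc, fun A => ?_⟩
  obtain ⟨C, J3, hsel'⟩ := hsel hD1 hD2 hM1 hM2 A
  refine ⟨C, max J1 (max J2 J3), fun J hJ => ?_⟩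
  have h1 : J1 ≤ J := le_trans (le_max_left _ _) hJ
  have h2 : J2 ≤ J := le_trans (le_trans (le_max_left _ _) (le_max_right _ _)) hJ
  have h3 : J3 ≤ J := le_trans (le_trans (le_max_right _ _) (le_max_right _ _)) hJ
  obtain ⟨cp, cm, w1, w2, w3, w4, w5, w6⟩ := hS' J h2
  have hSW : SW J cp cm := ⟨w1, w2, w3, w4, w5, w6⟩
  refine le_trans ?_ (hsel' J h3 cp cm hSW)
  have hsub : (Ioc J (2 * J)).filter (fun j : ℕ =>
      ((chenSet j).ncard : ℝ) < c * (J : ℝ) ^ 2 / Real.log J ^ 2) ⊆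
      (Ioc J (2 * J)).filter (fun j => ¬ Good J cp cm j) := by
    intro j hj
    rw [mem_filter] at hj ⊢
    refine ⟨hj.1, fun hg => ?_⟩
    have := hone' J h1 cp cm hSW j hj.1 hg
    linarith [hj.2]
  exact_mod_cast card_le_card hsub

/-- The final assembly. -/
theorem p_F : S_final :=
  of_pieces (p_sel p_sq) (p_one p_V p_win (p_lo p_win p_sw) (p_up p_win p_sw p_rr)) p_dya

end Pool.Agent.CH.F
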